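import Mathlib

/-!
# The Lie algebra `sl(n)`: Killing form, diagonal Cartan subalgebra, commuting elements
-/

set_option autoImplicit false
set_option linter.unusedSectionVars false

noncomputable section

namespace Pool.Agent.Y767.RP.Sl

attribute [local instance 100] LieRing.ofAssociativeRing

open Matrix

/-- `sl(n)` -/
abbrev S (n : ℕ) : LieSubalgebra ℂ (Matrix (Fin n) (Fin n) ℂ) :=
  LieAlgebra.SpecialLinear.sl (Fin n) ℂ

variable {n : ℕ}

/-- elementary matrices -/
abbrev E (i j : Fin n) (h : i ≠ j) : S n := LieAlgebra.SpecialLinear.single i j h 1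

/-- differences of diagonal elementary matrices -/
abbrev D (i j : Fin n) : S n := LieAlgebra.SpecialLinear.singleSubSingle i j 1

theorem E_lie (i j : Fin n) (h : i ≠ j) (v : Fin n → ℂ) :
    ⁅E i j h, v⁆ = v j • (Pi.single i 1 : Fin n → ℂ) := by
  change (Matrix.single i j (1 : ℂ)) *ᵥ v = _
  ext k
  simp only [Matrix.mulVec, dotProduct, Pi.smul_apply, smul_eq_mul]
  rw [Finset.sum_eq_single j]
  · by_cases hk : k = i
    · subst hk; simp
    · rw [Matrix.single_apply_of_row_ne (fun h' => hk h'.symm), Pi.single_eq_of_ne hk]; simp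
  · intro b _ hb
    rw [Matrix.single_apply_of_col_ne _ _ (fun h' => hb h'.symm), zero_mul]
  · intro h'; exact absurd (Finset.mem_univ j) h'

instance irreducible (n : ℕ) [hn : Fact (2 ≤ n)] : LieModule.IsIrreducible ℂ (S n) (Fin n → ℂ) := by
  have hnt : Nontrivial (Fin n) := Fin.nontrivial_iff_two_le.2 hn.1
  have : Nontrivial (Fin n → ℂ) := inferInstance
  refine LieModule.IsIrreducible.mk fun N hN => ?_
  have hN' := mt (LieSubmodule.eq_bot_iff N).mpr hN
  push Not at hN'
  obtain ⟨v, hv, hv0⟩ := hN'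
  obtain ⟨j, hj⟩ : ∃ j, v j ≠ 0 := by
    by_contra hcon
    push Not at hcon
    exact hv0 (funext hcon)
  have h1 : ∀ i, i ≠ j → (Pi.single i 1 : Fin n → ℂ) ∈ N := by
    intro i hi
    have h2 := N.lie_mem (x := E i j hi) hv
    rw [E_lie] at h2
    have h3 := N.smul_mem (v j)⁻¹ h2
    rwa [smul_smul, inv_mul_cancel₀ hj, one_smul] at h3
  have h4 : ∀ i, (Pi.single i 1 : Fin n → ℂ) ∈ N := by
    intro i
    by_cases hi : i = j
    · subst hi
      obtain ⟨k, hk⟩ := exists_ne i
      have h5 := N.lie_mem (x := E i k hk.symm) (h1 k hk)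
      rw [E_lie] at h5
      simpa using h5
    · exact h1 i hi
  rw [eq_top_iff]
  intro w _
  have h6 : w = ∑ i, w i • (Pi.single i 1 : Fin n → ℂ) := by
    ext k
    simp [Finset.sum_apply, Pi.single_apply]
  rw [h6]
  exact sum_mem fun i _ => N.smul_mem _ (h4 i)

instance faithful (n : ℕ) : LieModule.IsFaithful ℂ (S n) (Fin n → ℂ) := by
  rw [LieModule.isFaithful_iff']
  intro x hx
  apply Subtype.ext
  change (x : Matrix (Fin n) (Fin n) ℂ) = 0
  refine Matrix.toLin'.injective ?_
  rw [map_zero]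
  refine LinearMap.ext fun v => ?_
  exact hx v

theorem trace_zero (x : S n) :
    LinearMap.trace ℂ _ (LieModule.toEnd ℂ (S n) (Fin n → ℂ) x) = 0 := by
  have h : (LieModule.toEnd ℂ (S n) (Fin n → ℂ) x : (Fin n → ℂ) →ₗ[ℂ] (Fin n → ℂ)) =
      Matrix.toLin' (x : Matrix (Fin n) (Fin n) ℂ) := rfl
  rw [h, Matrix.trace_toLin'_eq]
  exact x.2

theorem isKilling (n : ℕ) (hn : 2 ≤ n) : LieAlgebra.IsKilling ℂ (S n) := by
  have : Fact (2 ≤ n) := ⟨hn⟩
  have : LieAlgebra.HasTrivialRadical ℂ (S n) :=
    LieAlgebra.hasTrivialRadical_of_isIrreducible_of_isFaithful ℂ (S n) (Fin n → ℂ) trace_zero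
  infer_instance

theorem diag_comm (a b : Matrix (Fin n) (Fin n) ℂ) (ha : ∀ i j, i ≠ j → a i j = 0)
    (hb : ∀ i j, i ≠ j → b i j = 0) : a * b = b * a := by
  have h : ∀ (a b : Matrix (Fin n) (Fin n) ℂ), (∀ i j, i ≠ j → a i j = 0) →
      (∀ i j, i ≠ j → b i j = 0) → ∀ i j, (a * b) i j = if i = j then a i i * b i i else 0 := by
    intro a b ha hb i j
    rw [Matrix.mul_apply, Finset.sum_eq_single i]
    · split_ifs with h
      · rw [h]
      · rw [hb i j h, mul_zero]
    · intro k _ hk
      rw [ha i k (Ne.symm hk), zero_mul]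
    · intro h
      exact absurd (Finset.mem_univ i) h
  ext i j
  rw [h a b ha hb, h b a hb ha]
  split_ifs
  · exact mul_comm _ _
  · rfl

/-- The diagonal elements of `sl(n)`. -/
def diag (n : ℕ) : LieSubalgebra ℂ (S n) where
  carrier := {x | ∀ i j, i ≠ j → (x : Matrix (Fin n) (Fin n) ℂ) i j = 0}
  zero_mem' := fun i j _ => rfl
  add_mem' := fun {a b} ha hb i j hij => by
    change (a : Matrix (Fin n) (Fin n) ℂ) i j + (b : Matrix (Fin n) (Fin n) ℂ) i j = 0
    rw [ha i j hij, hb i j hij, add_zero]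
  smul_mem' := fun c a ha i j hij => by
    change c * (a : Matrix (Fin n) (Fin n) ℂ) i j = 0
    rw [ha i j hij, mul_zero]
  lie_mem' := fun {a b} ha hb i j hij => by
    change ((a : Matrix (Fin n) (Fin n) ℂ) * (b : Matrix (Fin n) (Fin n) ℂ) -
      (b : Matrix (Fin n) (Fin n) ℂ) * (a : Matrix (Fin n) (Fin n) ℂ)) i j = 0
    rw [diag_comm _ _ ha hb, sub_self]
    rfl

instance abelian_diag : IsLieAbelian (diag n) where
  trivial := fun a b => by
    apply Subtype.ext
    apply Subtype.ext
    change ((a : S n) : Matrix (Fin n) (Fin n) ℂ) * ((b : S n) : Matrix (Fin n) (Fin n) ℂ) -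
      ((b : S n) : Matrix (Fin n) (Fin n) ℂ) * ((a : S n) : Matrix (Fin n) (Fin n) ℂ) = 0
    rw [diag_comm _ _ a.2 b.2, sub_self]

theorem D_mem (i j : Fin n) : D i j ∈ diag n := by
  intro k l hkl
  change (Matrix.single i i (1 : ℂ) - Matrix.single j j (1 : ℂ)) k l = 0
  rw [Matrix.sub_apply, Matrix.single_apply, Matrix.single_apply, if_neg, if_neg, sub_zero]
  · rintro ⟨rfl, rfl⟩; exact hkl rfl
  · rintro ⟨rfl, rfl⟩; exact hkl rfl

instance cartan : (diag n).IsCartanSubalgebra where
  nilpotent := inferInstance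
  self_normalizing := by
    apply le_antisymm
    · intro x hx
      rw [LieSubalgebra.mem_normalizer_iff] at hx
      intro i j hij
      have h := hx (D i j) (D_mem i j) i j hij
      have h3 : ((⁅x, D i j⁆ : S n) : Matrix (Fin n) (Fin n) ℂ) i j =
          (x : Matrix (Fin n) (Fin n) ℂ) i j * (-2) := by
        have hdiag : (Matrix.single i i (1 : ℂ) - Matrix.single j j (1 : ℂ) :
            Matrix (Fin n) (Fin n) ℂ) =
            Matrix.diagonal (fun k => if k = i then 1 else if k = j then -1 else 0) := by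
          ext k l
          rw [Matrix.sub_apply, Matrix.single_apply, Matrix.single_apply, Matrix.diagonal_apply]
          by_cases hkl : k = l
          · subst hkl
            by_cases h1 : k = i
            · subst h1
              simp [hij, Ne.symm hij]
            · by_cases h2 : k = j
              · subst h2; simp [hij, h1]
              · simp [h1, h2, Ne.symm h1, Ne.symm h2]
          · rw [if_neg hkl, if_neg, if_neg, sub_zero]
            · rintro ⟨rfl, rfl⟩; exact hkl rfl
            · rintro ⟨rfl, rfl⟩; exact hkl rfl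
        change ((x : Matrix (Fin n) (Fin n) ℂ) *
          (Matrix.single i i (1 : ℂ) - Matrix.single j j (1 : ℂ)) -
          (Matrix.single i i (1 : ℂ) - Matrix.single j j (1 : ℂ)) *
            (x : Matrix (Fin n) (Fin n) ℂ)) i j = _
        rw [hdiag, Matrix.sub_apply, Matrix.mul_diagonal, Matrix.diagonal_mul, if_pos rfl,
          if_neg (Ne.symm hij), if_pos rfl]
        ring
      rw [h3] at h
      have := (mul_eq_zero.mp h).resolve_right (by norm_num)
      exact this
    · exact LieSubalgebra.le_normalizer _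

theorem finrank_diag (hn : 1 ≤ n) : Module.finrank ℂ (diag n) < n := by
  have hN : Nonempty (Fin n) := ⟨⟨0, hn⟩⟩
  let F : diag n →ₗ[ℂ] (Fin n → ℂ) :=
    { toFun := fun x i => ((x : S n) : Matrix (Fin n) (Fin n) ℂ) i i
      map_add' := fun a b => rfl
      map_smul' := fun c a => rfl }
  have hF : Function.Injective F := by
    rw [injective_iff_map_eq_zero]
    intro x hx
    apply Subtype.ext
    apply Subtype.ext
    change ((x : S n) : Matrix (Fin n) (Fin n) ℂ) = 0
    ext i j
    by_cases hij : i = j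
    · subst hij
      exact congrFun hx i
    · exact x.2 i j hij
  have h1 : LinearMap.range F ≠ ⊤ := by
    intro htop
    have h2 : (fun _ => 1 : Fin n → ℂ) ∈ LinearMap.range F := by rw [htop]; trivial
    obtain ⟨x, hx⟩ := h2
    have h3 : Matrix.trace ((x : S n) : Matrix (Fin n) (Fin n) ℂ) = 0 := (x : S n).2
    have h4 : Matrix.trace ((x : S n) : Matrix (Fin n) (Fin n) ℂ) = ∑ i, F x i := rfl
    rw [h4, hx] at h3
    simp at h3
    omega
  have h5 := Submodule.finrank_lt h1
  rw [LinearMap.finrank_range_of_inj hF, Module.finrank_fin_fun] at h5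
  exact h5

/-- commuting elements -/
theorem commuting (hn : 4 ≤ n) : ∃ (k : ℕ) (v : Fin k → S n), n ≤ k ∧ LinearIndependent ℂ v ∧
    ∀ i j, ⁅v i, v j⁆ = 0 := by
  classical
  let I := {p : Fin n × Fin n // p.1.1 < 2 ∧ 2 ≤ p.2.1}
  have hI : ∀ p : I, p.1.1 ≠ p.1.2 := by
    intro p h
    have := p.2
    rw [h] at this
    omega
  let v : I → S n := fun p => E p.1.1 p.1.2 (hI p)
  have hli : LinearIndependent ℂ v := by
    rw [Fintype.linearIndependent_iff]
    intro c hc p
    have h1 : ((∑ q, c q • v q : S n) : Matrix (Fin n) (Fin n) ℂ) p.1.1 p.1.2 = 0 := by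
      rw [hc]; rfl
    have h2 : ((∑ q, c q • v q : S n) : Matrix (Fin n) (Fin n) ℂ) =
        ∑ q : I, c q • Matrix.single q.1.1 q.1.2 (1 : ℂ) := by
      have := map_sum (S n).incl (fun q => c q • v q) Finset.univ
      exact this
    rw [h2, Matrix.sum_apply, Finset.sum_eq_single p] at h1
    · simpa using h1
    · intro q _ hq
      rw [Matrix.smul_apply, Matrix.single_apply, if_neg, smul_zero]
      rintro ⟨ha, hb⟩
      exact hq (Subtype.ext (Prod.ext ha hb))
    · intro h; exact absurd (Finset.mem_univ p) h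
  have hcard : n ≤ Fintype.card I := by
    let f : Fin 2 × Fin (n - 2) → I := fun q =>
      ⟨(⟨q.1.1, by have := q.1.2; omega⟩, ⟨q.2.1 + 2, by have := q.2.2; omega⟩),
        ⟨q.1.2, by simp⟩⟩
    have hf : Function.Injective f := by
      rintro ⟨a, b⟩ ⟨a', b'⟩ h
      have h1 : a.1 = a'.1 := congrArg (fun z : I => z.1.1.1) h
      have h2 : b.1 + 2 = b'.1 + 2 := congrArg (fun z : I => z.1.2.1) h
      exact Prod.ext (Fin.ext h1) (Fin.ext (Nat.add_right_cancel h2))
    have := Fintype.card_le_of_injective f hf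
    simp only [Fintype.card_prod, Fintype.card_fin] at this
    omega
  let e := Fintype.equivFin I
  refine ⟨Fintype.card I, fun i => v (e.symm i), hcard, hli.comp _ e.symm.injective, ?_⟩
  intro i j
  apply Subtype.ext
  set p := e.symm i
  set q := e.symm j
  change Matrix.single p.1.1 p.1.2 (1 : ℂ) * Matrix.single q.1.1 q.1.2 (1 : ℂ) -
    Matrix.single q.1.1 q.1.2 (1 : ℂ) * Matrix.single p.1.1 p.1.2 (1 : ℂ) = 0
  have h1 : p.1.2 ≠ q.1.1 := by
    intro h
    have a := p.2.2
    have b := q.2.1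
    rw [h] at a
    omega
  have h2 : q.1.2 ≠ p.1.1 := by
    intro h
    have a := q.2.2
    have b := p.2.1
    rw [h] at a
    omega
  rw [Matrix.single_mul_single_of_ne (h := h1), Matrix.single_mul_single_of_ne (h := h2),
    sub_zero]

end Pool.Agent.Y767.RP.Sl
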