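import Pool.Agent.Y767.RP.Contr

/-!
# The submodule of all exterior vectors of degree `k` killed by all contractions by `s(h)`
-/

set_option autoImplicit false
set_option linter.unusedSectionVars false

open scoped TensorProduct

noncomputable section

namespace Pool.Agent.Y767.RP

open H957.ReederPhi

section Lin

variable {g : Type} [AddCommGroup g] [Module ℂ g]

theorem ιMulti_mem {k : ℕ} (v : Fin k → g) : ExteriorAlgebra.ιMulti ℂ k v ∈ ⋀[ℂ]^k g := by
  rw [← ExteriorAlgebra.ιMulti_span_fixedDegree]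
  exact Submodule.subset_span ⟨v, rfl⟩

theorem ι_mul_mem {k : ℕ} (x : g) {w : ExteriorAlgebra ℂ g} (hw : w ∈ ⋀[ℂ]^k g) :
    ExteriorAlgebra.ι ℂ x * w ∈ ⋀[ℂ]^(k + 1) g := by
  change ExteriorAlgebra.ι ℂ x * w ∈
    (LinearMap.range (ExteriorAlgebra.ι ℂ : g →ₗ[ℂ] ExteriorAlgebra ℂ g)) ^ (k + 1)
  rw [pow_succ']
  exact Submodule.mul_mem_mul ⟨x, rfl⟩ hw

theorem ct_ιMulti_zero (d : Module.Dual ℂ g) : ∀ (k : ℕ) (v : Fin k → g), (∀ i, d (v i) = 0) →
    ct d (ExteriorAlgebra.ιMulti ℂ k v) = 0 := by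
  intro k
  induction k with
  | zero =>
    intro v _
    rw [ExteriorAlgebra.ιMulti_zero_apply, ← map_one (algebraMap ℂ (ExteriorAlgebra ℂ g)),
      ct_algebraMap]
  | succ k ih =>
    intro v hv
    rw [ExteriorAlgebra.ιMulti_succ_apply, ct_ι_mul, hv 0, zero_smul]
    have := ih (Matrix.vecTail v) fun i => hv i.succ
    change 0 - _ * ct d (ExteriorAlgebra.ιMulti ℂ k (Matrix.vecTail v)) = 0
    rw [this, mul_zero, sub_zero]

theorem ιMulti_ne_zero : ∀ (k : ℕ) (v : Fin k → g), LinearIndependent ℂ v →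
    ExteriorAlgebra.ιMulti ℂ k v ≠ 0 := by
  intro k
  induction k with
  | zero =>
    intro v _
    rw [ExteriorAlgebra.ιMulti_zero_apply]
    exact one_ne_zero
  | succ k ih =>
    intro v hv h0
    have h1 := (linearIndependent_fin_succ.1 hv).1
    have h2 := (linearIndependent_fin_succ.1 hv).2
    obtain ⟨d, hd1, hd2⟩ := Submodule.exists_dual_map_eq_bot_of_notMem h2 inferInstance
    have h3 : ∀ i, d (Fin.tail v i) = 0 := by
      intro i
      have h4 : d (Fin.tail v i) ∈ (Submodule.span ℂ (Set.range (Fin.tail v))).map d :=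
        Submodule.mem_map_of_mem (Submodule.subset_span ⟨i, rfl⟩)
      rw [hd2] at h4
      simpa using h4
    have h5 := ct_ιMulti_zero d k (Fin.tail v) h3
    have h6 : ct d (ExteriorAlgebra.ιMulti ℂ (k + 1) v) = 0 := by rw [h0, map_zero]
    rw [ExteriorAlgebra.ιMulti_succ_apply, ct_ι_mul] at h6
    change d (v 0) • ExteriorAlgebra.ιMulti ℂ k (Fin.tail v) - _ * ct d
      (ExteriorAlgebra.ιMulti ℂ k (Fin.tail v)) = 0 at h6
    rw [h5, mul_zero, sub_zero] at h6
    rcases smul_eq_zero.1 h6 with h7 | h7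
    · exact hd1 h7
    · exact ih _ h1 h7

theorem map_zero_of_lt {h : Type} [AddCommGroup h] [Module ℂ h] [FiniteDimensional ℂ h]
    (q : g →ₗ[ℂ] h) {k : ℕ} (hk : Module.finrank ℂ h < k) {w : ExteriorAlgebra ℂ g}
    (hw : w ∈ ⋀[ℂ]^k g) : ExteriorAlgebra.map q w = 0 := by
  rw [← ExteriorAlgebra.ιMulti_span_fixedDegree] at hw
  induction hw using Submodule.span_induction with
  | mem x hx =>
    obtain ⟨v, rfl⟩ := hx
    rw [ExteriorAlgebra.map_apply_ιMulti]
    refine AlternatingMap.map_linearDependent _ _ fun hli => ?_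
    have := hli.fintype_card_le_finrank
    simp only [Fintype.card_fin] at this
    omega
  | zero => exact map_zero _
  | add x y _ _ hx hy => rw [map_add, hx, hy, add_zero]
  | smul c x _ hx => rw [map_smul, hx, smul_zero]

theorem deriv_mem' [FiniteDimensional ℂ g] (T : g →ₗ[ℂ] g) {k : ℕ} {w : ExteriorAlgebra ℂ g}
    (hw : w ∈ ⋀[ℂ]^k g) : derivLin T w ∈ ⋀[ℂ]^k g := by
  have key : ∀ (k : ℕ) (v : Fin k → g), derivLin T (ExteriorAlgebra.ιMulti ℂ k v) ∈ ⋀[ℂ]^k g := by
    intro k
    induction k with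
    | zero =>
      intro v
      rw [ExteriorAlgebra.ιMulti_zero_apply, H957.ReederPhi.deriv_one]
      exact Submodule.zero_mem _
    | succ k ih =>
      intro v
      rw [ExteriorAlgebra.ιMulti_succ_apply, deriv_ι_mul]
      exact Submodule.add_mem _ (ι_mul_mem _ (ιMulti_mem _)) (ι_mul_mem _ (ih _))
  rw [← ExteriorAlgebra.ιMulti_span_fixedDegree] at hw
  induction hw using Submodule.span_induction with
  | mem x hx =>
    obtain ⟨v, rfl⟩ := hx
    exact key k v
  | zero => rw [map_zero]; exact Submodule.zero_mem _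
  | add x y _ _ hx hy => rw [map_add]; exact Submodule.add_mem _ hx hy
  | smul c x _ hx => rw [map_smul]; exact Submodule.smul_mem _ c hx

/-- the first leg is mapped by `Λ q`, the second one by the functional `ψ` -/
def leg {h : Type} [AddCommGroup h] [Module ℂ h] (q : g →ₗ[ℂ] h)
    (ψ : ExteriorAlgebra ℂ g →ₗ[ℂ] ℂ) :
    ExteriorAlgebra ℂ g ⊗[ℂ] ExteriorAlgebra ℂ g →ₗ[ℂ] ExteriorAlgebra ℂ h :=
  (TensorProduct.rid ℂ (ExteriorAlgebra ℂ h)).toLinearMap ∘ₗ
    TensorProduct.map (ExteriorAlgebra.map q).toLinearMap ψ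

section leg

variable {h : Type} [AddCommGroup h] [Module ℂ h] (q : g →ₗ[ℂ] h)

theorem leg_tmul (ψ : ExteriorAlgebra ℂ g →ₗ[ℂ] ℂ) (a b : ExteriorAlgebra ℂ g) :
    leg q ψ (a ⊗ₜ[ℂ] b) = ψ b • ExteriorAlgebra.map q a := by
  simp [leg]

theorem leg_smul (c : ℂ) (ψ : ExteriorAlgebra ℂ g →ₗ[ℂ] ℂ)
    (T : ExteriorAlgebra ℂ g ⊗[ℂ] ExteriorAlgebra ℂ g) : leg q (c • ψ) T = c • leg q ψ T := by
  induction T using TensorProduct.induction_on with
  | zero => simp
  | add x y hx hy => simp only [map_add, hx, hy, smul_add]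
  | tmul a b => rw [leg_tmul, leg_tmul, LinearMap.smul_apply, smul_assoc]

theorem leg_add (ψ ψ' : ExteriorAlgebra ℂ g →ₗ[ℂ] ℂ)
    (T : ExteriorAlgebra ℂ g ⊗[ℂ] ExteriorAlgebra ℂ g) :
    leg q (ψ + ψ') T = leg q ψ T + leg q ψ' T := by
  induction T using TensorProduct.induction_on with
  | zero => simp
  | add x y hx hy => simp only [map_add, hx, hy]; abel
  | tmul a b => rw [leg_tmul, leg_tmul, leg_tmul, LinearMap.add_apply, add_smul]

theorem leg_comp (ψ : ExteriorAlgebra ℂ g →ₗ[ℂ] ℂ)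
    (F : ExteriorAlgebra ℂ g →ₗ[ℂ] ExteriorAlgebra ℂ g)
    (T : ExteriorAlgebra ℂ g ⊗[ℂ] ExteriorAlgebra ℂ g) :
    leg q (ψ ∘ₗ F) T = leg q ψ (TensorProduct.map LinearMap.id F T) := by
  induction T using TensorProduct.induction_on with
  | zero => simp
  | add x y hx hy => simp only [map_add, hx, hy]
  | tmul a b => rw [leg_tmul, TensorProduct.map_tmul, leg_tmul]; rfl

theorem leg_step (m : g) (T : ExteriorAlgebra ℂ g ⊗[ℂ] ExteriorAlgebra ℂ g) :
    leg q (eps (g := g)).toLinearMap (step m T) =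
      ExteriorAlgebra.ι ℂ (q m) * leg q (eps (g := g)).toLinearMap T := by
  induction T using TensorProduct.induction_on with
  | zero => simp
  | add x y hx hy => simp only [map_add, hx, hy, mul_add]
  | tmul a b =>
    rw [step_tmul, map_add, leg_tmul, leg_tmul, leg_tmul, AlgHom.toLinearMap_apply,
      AlgHom.toLinearMap_apply, eps_ι_mul, zero_smul, add_zero, map_mul,
      ExteriorAlgebra.map_apply_ι, mul_smul_comm]

/-- the counit -/
theorem leg_cop (w : ExteriorAlgebra ℂ g) :
    leg q (eps (g := g)).toLinearMap (coproduct g w) = ExteriorAlgebra.map q w := by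
  induction w using left_ind with
  | h1 r =>
    rw [map_one_algebraMap, map_smul, leg_tmul, AlgHom.toLinearMap_apply,
      Algebra.algebraMap_eq_smul_one, map_smul, map_one, map_one, one_smul]
  | h2 x y hx hy => simp only [map_add, hx, hy]
  | h3 m x hx => rw [coproduct_ι_mul, leg_step, hx, map_mul, ExteriorAlgebra.map_apply_ι]

end leg

theorem eps_sgn (w : ExteriorAlgebra ℂ g) : eps (sgn g w) = eps w := by
  induction w using left_ind with
  | h1 r =>
    have : sgn g (algebraMap ℂ (ExteriorAlgebra ℂ g) r) = algebraMap ℂ _ r := AlgHom.commutes _ r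
    rw [this]
  | h2 x y hx hy => simp only [map_add, hx, hy]
  | h3 m x hx => rw [sgn_ι_mul, map_neg, eps_ι_mul, eps_ι_mul, neg_zero]

theorem eps_even (w : ExteriorAlgebra ℂ g) : eps (evenProj g w) = eps w := by
  have h := eps_sgn w
  rw [evenProj_def, map_smul, map_add]
  rw [h, smul_eq_mul]
  ring

theorem pairing_one_right (κ : g →ₗ[ℂ] Module.Dual ℂ g) (w : ExteriorAlgebra ℂ g) :
    pairLin κ w 1 = eps w := by
  induction w using left_ind with
  | h1 r =>
    rw [Algebra.algebraMap_eq_smul_one, map_smul, map_smul, LinearMap.smul_apply, pairing_one]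
  | h2 u v hu hv => simp only [map_add, LinearMap.add_apply, hu, hv]
  | h3 m u _ =>
    rw [pairing_ι_mul, eps_ι_mul, ← map_one (algebraMap ℂ (ExteriorAlgebra ℂ g)), ct_algebraMap,
      map_zero]

/-- an element of `M ⊗ A^*` vanishes if it does after evaluation at all elements of `A` -/
theorem eq_zero_of_eval {M A : Type} [AddCommGroup M] [Module ℂ M] [AddCommGroup A] [Module ℂ A]
    (Z : M ⊗[ℂ] Module.Dual ℂ A)
    (hZ : ∀ a : A, TensorProduct.rid ℂ M
      (TensorProduct.map LinearMap.id (Module.Dual.eval ℂ A a) Z) = 0) : Z = 0 := by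
  classical
  let B := Module.Basis.ofVectorSpace ℂ M
  let E := TensorProduct.equivFinsuppOfBasisLeft (N := Module.Dual ℂ A) B
  have key : ∀ (Z : M ⊗[ℂ] Module.Dual ℂ A) (i) (a : A), (E Z i) a =
      B.repr (TensorProduct.rid ℂ M
        (TensorProduct.map LinearMap.id (Module.Dual.eval ℂ A a) Z)) i := by
    intro Z i a
    induction Z using TensorProduct.induction_on with
    | zero => simp
    | add x y hx hy => simp only [map_add, Finsupp.add_apply, LinearMap.add_apply, hx, hy]
    | tmul m n =>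
      simp only [E, TensorProduct.equivFinsuppOfBasisLeft_apply_tmul_apply, TensorProduct.map_tmul,
        LinearMap.id_apply, TensorProduct.rid_tmul, map_smul, Finsupp.smul_apply,
        LinearMap.smul_apply, Module.Dual.eval_apply, smul_eq_mul]
      ring
  apply E.injective
  rw [map_zero]
  ext i a
  rw [key, hZ, map_zero]
  rfl

end Lin

end Pool.Agent.Y767.RP
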